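import Pool.Agent.K1H35.SH.Stm2

set_option autoImplicit false

/-! Project SQ, piece PSI: extraction of the permutation. -/

namespace Pool.Agent.K1H85.SQ

open Pool.Agent.K1H35.SH Finset

theorem t_PSI : S_PSI := by
  classical
  intro n d b G H f hd hG hT hb
  have hadj : ∀ v x, x ∈ nb G v ↔ G.Adj v x := by
    intro v x
    simp [nb]
  have hadjH : ∀ v x, x ∈ nb H v ↔ H.Adj v x := by
    intro v x
    simp [nb]
  have hreg : ∀ v, (nb G v).card = d := by
    have h := hG
    unfold reg at h
    exact (mem_filter.mp h).2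
  have hregH : ∀ v, (nb H v).card = d := by
    intro v
    have h2 : nb H v = (nb G v).image (f v) := by
      apply Finset.coe_injective
      rw [coe_image, (hT v).2.1]
    rw [h2, card_image_of_injOn (hT v).1, hreg]
  have hfH : ∀ z x, G.Adj z x → H.Adj z (f z x) := by
    intro z x h
    rw [← hadjH]
    have h1 : f z x ∈ (nb H z : Set (Fin n)) := by
      rw [← (hT z).2.1]
      exact ⟨x, mem_coe.mpr ((hadj z x).mpr h), rfl⟩
    exact mem_coe.mp h1
  -- the number of bad triples at `x`
  obtain ⟨c, hc⟩ : ∃ c : Fin n → Fin n → ℕ, ∀ x z, c x z =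
      ((nb G x).filter (fun z' => f z x ≠ f z' x)).card := ⟨_, fun _ _ => rfl⟩
  have hbeta : ∑ x, ∑ z ∈ nb G x, c x z ≤ b := by
    refine le_trans (le_of_eq ?_) hb
    have e1 : ∀ x, ∑ z ∈ nb G x, c x z = ∑ z, ∑ z',
        if (G.Adj x z ∧ G.Adj x z' ∧ f z x ≠ f z' x) then 1 else 0 := by
      intro x
      have h0 : nb G x = univ.filter (fun z => G.Adj x z) := by
        ext z
        simp [hadj]
      rw [h0, sum_filter]
      refine sum_congr rfl fun z _ => ?_
      by_cases h : G.Adj x z
      · rw [if_pos h, hc, h0, filter_filter, card_filter]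
        refine sum_congr rfl fun z' _ => ?_
        simp [h]
      · rw [if_neg h]
        symm
        refine sum_eq_zero fun z' _ => ?_
        simp [h]
    have e2 : ∀ z z', bad G f z z' = ∑ x,
        if (G.Adj x z ∧ G.Adj x z' ∧ f z x ≠ f z' x) then 1 else 0 := by
      intro z z'
      rw [← card_filter]
      unfold bad
      congr 1
      ext x
      simp only [mem_filter, mem_inter, hadj, mem_univ, true_and]
      rw [G.adj_comm z x, G.adj_comm z' x, and_assoc]
    rw [sum_congr rfl (fun x _ => e1 x), sum_comm]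
    refine sum_congr rfl fun z _ => ?_
    rw [sum_comm]
    exact sum_congr rfl fun z' _ => (e2 z z').symm
  -- the most popular value
  have hchoose : ∀ x, ∃ w, d * ((nb G x).filter (fun z => f z x ≠ w)).card ≤
      ∑ z ∈ nb G x, c x z := by
    intro x
    have hne : (nb G x).Nonempty := by
      rw [← card_pos, hreg]
      omega
    obtain ⟨z0, hz0, hmin⟩ := exists_min_image (nb G x) (c x) hne
    refine ⟨f z0 x, ?_⟩
    have h1 : ((nb G x).filter (fun z => f z x ≠ f z0 x)).card = c x z0 := by
      rw [hc]
      congr 1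
      refine filter_congr fun z _ => ?_
      exact ne_comm
    have h2 := card_nsmul_le_sum (nb G x) (c x) (c x z0) hmin
    rw [hreg, smul_eq_mul] at h2
    rw [h1]
    exact h2
  choose ψ hψ using hchoose
  have hinj : Set.InjOn ψ (univ.filter (fun x => 8 * ((nb G x).filter
      (fun z => f z x ≠ ψ x)).card ≤ d) : Finset (Fin n)) := by
    intro x hx x' hx' heq
    by_contra hne
    rw [mem_coe, mem_filter] at hx hx'
    have hA := card_filter_add_card_filter_not (s := nb G x) (fun z => f z x = ψ x)
    have hA' := card_filter_add_card_filter_not (s := nb G x') (fun z => f z x' = ψ x')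
    rw [hreg] at hA hA'
    have hdisj : Disjoint ((nb G x).filter (fun z => f z x = ψ x))
        ((nb G x').filter (fun z => f z x' = ψ x')) := by
      rw [disjoint_left]
      intro z hz hz'
      rw [mem_filter, hadj] at hz hz'
      have h1 : f z x = f z x' := by rw [hz.2, hz'.2, heq]
      exact hne ((hT z).1 (mem_coe.mpr ((hadj z x).mpr hz.1.symm))
        (mem_coe.mpr ((hadj z x').mpr hz'.1.symm)) h1)
    have hsub : (nb G x).filter (fun z => f z x = ψ x) ∪
        (nb G x').filter (fun z => f z x' = ψ x') ⊆ nb H (ψ x) := by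
      intro z hz
      rw [hadjH]
      rw [mem_union, mem_filter, mem_filter, hadj, hadj] at hz
      rcases hz with hz | hz
      · have h1 := hfH z x hz.1.symm
        rw [hz.2] at h1
        exact h1.symm
      · have h1 := hfH z x' hz.1.symm
        rw [hz.2, ← heq] at h1
        exact h1.symm
    have hle := card_le_card hsub
    rw [card_union_of_disjoint hdisj, hregH] at hle
    have h3 := hx.2
    have h4 := hx'.2
    simp only [ne_eq] at h3 h4
    omega
  obtain ⟨g, hg⟩ := Finset.exists_equiv_extend_of_card_eq (t := (univ : Finset (Fin n)))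
    (by simp) (s := univ.filter (fun x => 8 * ((nb G x).filter
      (fun z => f z x ≠ ψ x)).card ≤ d)) (f := ψ) (subset_univ _) hinj
  obtain ⟨π, hπ⟩ : ∃ π : Equiv.Perm (Fin n), ∀ x, 8 * ((nb G x).filter
      (fun z => f z x ≠ ψ x)).card ≤ d → π x = ψ x := by
    refine ⟨g.trans (Equiv.subtypeUnivEquiv (fun x => mem_univ x)), fun x hx => ?_⟩
    have h1 := hg x (mem_filter.mpr ⟨mem_univ _, hx⟩)
    rw [← h1]
    rfl
  -- the exceptional edges
  have hWb : d * ((univ : Finset (Fin n × Fin n)).filter
      (fun p => G.Adj p.1 p.2 ∧ f p.2 p.1 ≠ π p.1)).card ≤ 9 * b := by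
    have e : ((univ : Finset (Fin n × Fin n)).filter
        (fun p => G.Adj p.1 p.2 ∧ f p.2 p.1 ≠ π p.1)).card =
        ∑ x, ((nb G x).filter (fun z => f z x ≠ π x)).card := by
      rw [card_filter, Fintype.sum_prod_type]
      refine sum_congr rfl fun x _ => ?_
      rw [← card_filter]
      congr 1
      ext z
      simp [hadj]
    have h1 : ∀ x, d * ((nb G x).filter (fun z => f z x ≠ π x)).card ≤
        9 * ∑ z ∈ nb G x, c x z := by
      intro x
      by_cases hx : 8 * ((nb G x).filter (fun z => f z x ≠ ψ x)).card ≤ d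
      · rw [hπ x hx]
        have := hψ x
        omega
      · have h2 : ((nb G x).filter (fun z => f z x ≠ π x)).card ≤ d := by
          rw [← hreg x]
          exact card_filter_le _ _
        have h3 := hψ x
        have h4 : d * ((nb G x).filter (fun z => f z x ≠ π x)).card ≤ d * d :=
          Nat.mul_le_mul_left d h2
        have h5 : d * d ≤ d * (8 * ((nb G x).filter (fun z => f z x ≠ ψ x)).card) :=
          Nat.mul_le_mul_left d (by omega)
        have h6 : d * (8 * ((nb G x).filter (fun z => f z x ≠ ψ x)).card) =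
          8 * (d * ((nb G x).filter (fun z => f z x ≠ ψ x)).card) := by ring
        omega
    rw [e, mul_sum]
    calc ∑ x, d * ((nb G x).filter (fun z => f z x ≠ π x)).card
        ≤ ∑ x, 9 * ∑ z ∈ nb G x, c x z := sum_le_sum fun x _ => h1 x
      _ = 9 * ∑ x, ∑ z ∈ nb G x, c x z := by rw [mul_sum]
      _ ≤ 9 * b := Nat.mul_le_mul_left 9 hbeta
  generalize hWdef : (univ : Finset (Fin n × Fin n)).filter
      (fun p => G.Adj p.1 p.2 ∧ f p.2 p.1 ≠ π p.1) = W at hWb
  have hEG : ((univ : Finset (Fin n × Fin n)).filter (fun p => G.Adj p.1 p.2)).card =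
      ∑ _x : Fin n, d := by
    rw [card_filter, Fintype.sum_prod_type]
    refine sum_congr rfl fun x _ => ?_
    rw [← card_filter, ← hreg x]
    congr 1
  have hEH : ((univ : Finset (Fin n × Fin n)).filter (fun p => H.Adj p.1 p.2)).card =
      ∑ _x : Fin n, d := by
    rw [card_filter, Fintype.sum_prod_type]
    refine sum_congr rfl fun x _ => ?_
    rw [← card_filter, ← hregH x]
    congr 1
  generalize hE1def : (univ : Finset (Fin n × Fin n)).filter
      (fun p => G.Adj p.1 p.2 ∧ f p.2 p.1 = π p.1) = E1
  have hE1 : E1.card + W.card = ∑ _x : Fin n, d := by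
    rw [← hEG, ← hE1def, ← hWdef, ← filter_filter, ← filter_filter]
    exact card_filter_add_card_filter_not _
  have hθ : Function.Injective (fun p : Fin n × Fin n => (π p.1, p.2)) := by
    rintro ⟨x, z⟩ ⟨x', z'⟩ h
    simp only [Prod.mk.injEq] at h
    rw [Prod.mk.injEq]
    exact ⟨π.injective h.1, h.2⟩
  have hIsub : E1.image (fun p : Fin n × Fin n => (π p.1, p.2)) ⊆
      (univ : Finset (Fin n × Fin n)).filter (fun p => H.Adj p.1 p.2) := by
    intro q hq
    rw [mem_image] at hq
    obtain ⟨p, hp, rfl⟩ := hq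
    rw [← hE1def, mem_filter] at hp
    rw [mem_filter]
    refine ⟨mem_univ _, ?_⟩
    have h1 := hfH p.2 p.1 hp.2.1.symm
    rw [hp.2.2] at h1
    exact h1.symm
  have hR : (((univ : Finset (Fin n × Fin n)).filter (fun p => H.Adj p.1 p.2)) \
      E1.image (fun p : Fin n × Fin n => (π p.1, p.2))).card = W.card := by
    rw [card_sdiff_of_subset hIsub, card_image_of_injective _ hθ, hEH]
    omega
  generalize hX1def : (univ : Finset (Fin n × Fin n)).filter
      (fun p => G.Adj p.1 p.2 ∧ ¬ G.Adj (π p.1) (π.symm p.2)) = X1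
  have hX1 : X1.card ≤ 2 * W.card := by
    have h1 : (X1 \ W).card ≤ W.card := by
      rw [← hR]
      refine card_le_card_of_injOn (fun p : Fin n × Fin n => (p.2, π p.1)) ?_ ?_
      · intro p hp
        rw [mem_coe, mem_sdiff, ← hX1def, ← hWdef, mem_filter, mem_filter] at hp
        obtain ⟨⟨-, hp1, hp2⟩, hp3⟩ := hp
        have hp4 : f p.2 p.1 = π p.1 := by
          by_contra hcon
          exact hp3 ⟨mem_univ _, hp1, hcon⟩
        rw [mem_coe, mem_sdiff, mem_filter]
        refine ⟨⟨mem_univ _, ?_⟩, ?_⟩
        · have h2 := hfH p.2 p.1 hp1.symm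
          rw [hp4] at h2
          exact h2
        · intro hcon
          rw [mem_image] at hcon
          obtain ⟨q, hq, hq2⟩ := hcon
          rw [← hE1def, mem_filter] at hq
          rw [Prod.mk.injEq] at hq2
          apply hp2
          have h3 : q.1 = π.symm p.2 := by
            rw [← hq2.1, Equiv.symm_apply_apply]
          rw [← h3, ← hq2.2]
          exact hq.2.1.symm
      · rintro ⟨x, z⟩ _ ⟨x', z'⟩ _ h
        simp only [Prod.mk.injEq] at h
        rw [Prod.mk.injEq]
        exact ⟨π.injective h.2, h.1⟩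
    have h2 : X1.card ≤ (X1 \ W).card + W.card := by
      have := card_le_card (show X1 ⊆ (X1 \ W) ∪ W by
        intro p hp
        rw [mem_union, mem_sdiff]
        by_cases h : p ∈ W
        · exact Or.inr h
        · exact Or.inl ⟨hp, h⟩)
      exact this.trans (card_union_le _ _)
    omega
  generalize hX2def : (univ : Finset (Fin n × Fin n)).filter
      (fun p => ¬ G.Adj p.1 p.2 ∧ G.Adj (π p.1) (π.symm p.2)) = X2
  have hX2 : X2.card = X1.card := by
    have h1 : ((univ : Finset (Fin n × Fin n)).filter
        (fun p => G.Adj (π p.1) (π.symm p.2))).card =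
        ((univ : Finset (Fin n × Fin n)).filter (fun p => G.Adj p.1 p.2)).card := by
      refine card_bij (fun p _ => (π p.1, π.symm p.2)) ?_ ?_ ?_
      · intro p hp
        rw [mem_filter] at hp ⊢
        exact ⟨mem_univ _, hp.2⟩
      · rintro ⟨x, z⟩ _ ⟨x', z'⟩ _ h
        simp only [Prod.mk.injEq] at h
        rw [Prod.mk.injEq]
        exact ⟨π.injective h.1, π.symm.injective h.2⟩
      · rintro ⟨x, z⟩ hq
        rw [mem_filter] at hq
        refine ⟨(π.symm x, π z), ?_, ?_⟩
        · rw [mem_filter]
          refine ⟨mem_univ _, ?_⟩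
          simpa using hq.2
        · simp
    have h2 := card_filter_add_card_filter_not (s := (univ : Finset (Fin n × Fin n)).filter
      (fun p => G.Adj p.1 p.2)) (fun p => G.Adj (π p.1) (π.symm p.2))
    have h3 := card_filter_add_card_filter_not (s := (univ : Finset (Fin n × Fin n)).filter
      (fun p => G.Adj (π p.1) (π.symm p.2))) (fun p => G.Adj p.1 p.2)
    rw [filter_filter, filter_filter] at h2 h3
    have h4 : (univ : Finset (Fin n × Fin n)).filter
        (fun p => G.Adj (π p.1) (π.symm p.2) ∧ G.Adj p.1 p.2) =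
        (univ : Finset (Fin n × Fin n)).filter
        (fun p => G.Adj p.1 p.2 ∧ G.Adj (π p.1) (π.symm p.2)) := by
      refine filter_congr fun p _ => ?_
      exact and_comm
    have h5 : (univ : Finset (Fin n × Fin n)).filter
        (fun p => G.Adj (π p.1) (π.symm p.2) ∧ ¬ G.Adj p.1 p.2) = X2 := by
      rw [← hX2def]
      refine filter_congr fun p _ => ?_
      exact and_comm
    rw [h4, h5] at h3
    rw [hX1def] at h2
    omega
  refine ⟨π, (univ : Finset (Fin n × Fin n)).filter
    (fun p => ¬ (G.Adj p.1 p.2 ↔ G.Adj (π p.1) (π.symm p.2))), ?_, ?_, ?_⟩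
  · have h1 : ((univ : Finset (Fin n × Fin n)).filter
        (fun p => ¬ (G.Adj p.1 p.2 ↔ G.Adj (π p.1) (π.symm p.2)))).card ≤ 4 * W.card := by
      have h2 : (univ : Finset (Fin n × Fin n)).filter
          (fun p => ¬ (G.Adj p.1 p.2 ↔ G.Adj (π p.1) (π.symm p.2))) ⊆ X1 ∪ X2 := by
        intro p hp
        rw [mem_filter] at hp
        rw [mem_union, ← hX1def, ← hX2def, mem_filter, mem_filter]
        have h3 := hp.2
        by_cases h4 : G.Adj p.1 p.2
        · by_cases h5 : G.Adj (π p.1) (π.symm p.2)
          · exact absurd (iff_of_true h4 h5) h3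
          · exact Or.inl ⟨mem_univ _, h4, h5⟩
        · by_cases h5 : G.Adj (π p.1) (π.symm p.2)
          · exact Or.inr ⟨mem_univ _, h4, h5⟩
          · exact absurd (iff_of_false h4 h5) h3
      have h6 := (card_le_card h2).trans (card_union_le _ _)
      omega
    calc d * _ ≤ d * (4 * W.card) := Nat.mul_le_mul_left d h1
      _ = 4 * (d * W.card) := by ring
      _ ≤ 4 * (9 * b) := Nat.mul_le_mul_left 4 hWb
      _ = 36 * b := by ring
  · intro x z _
    rw [mem_filter]
    by_cases h4 : G.Adj x z
    · by_cases h5 : G.Adj (π x) (π.symm z)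
      · simp [h4, h5]
      · simp [h4, h5]
    · by_cases h5 : G.Adj (π x) (π.symm z)
      · simp [h4, h5]
      · simp [h4, h5]
  · have h1 : ({p : Fin n × Fin n | G.Adj p.1 p.2 ∧ f p.2 p.1 ≠ π p.1} : Set _).ncard =
        W.card := by
      rw [← hWdef, ← Set.ncard_coe_finset]
      congr 1
      ext p
      simp
    rw [h1]
    exact hWb

end Pool.Agent.K1H85.SQ
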